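import Mathlib

namespace Pool.Agent.Results.MP_045218_nt.Counter
open Polynomial Filter Topology

/-- the ring of integers of the rational function field over the field with two elements. -/
abbrev O : Type := (ZMod 2)[X]

/-- Folner sequence in the additive group. -/
def Folner (F : ℕ → Finset O) : Prop :=
  (∀ N, (F N).Nonempty) ∧ ∀ a : O, Tendsto (fun N =>
    ((symmDiff ((fun x => x + a) '' (F N : Set O)) (F N : Set O)).ncard : ℝ) / (F N).card)
      atTop (𝓝 0)

/-- positive upper Banach density. -/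
def PosDens (A : Set O) : Prop :=
  ∃ F, Folner F ∧ 0 < limsup (fun N => ((A ∩ (F N : Set O)).ncard : ℝ) / (F N).card) atTop

lemma dens (l : O →+ (Fin 4 → ZMod 2)) : PosDens (l.ker : Set O) := by
  have fin : ∀ N, Finite (degreeLT (ZMod 2) N) := fun N =>
    Finite.of_equiv _ (degreeLTEquiv (ZMod 2) N).toEquiv.symm
  have fs : ∀ N, (degreeLT (ZMod 2) N : Set O).Finite := fun N => Set.toFinite _
  have pos : ∀ N, (0 : ℝ) < (fs N).toFinset.card := fun N => by
    exact_mod_cast Finset.card_pos.2 ⟨0, by simp⟩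
  refine ⟨fun N => (fs N).toFinset, ⟨fun N => ⟨0, by simp⟩, fun a => ?_⟩, ?_⟩
  · refine tendsto_const_nhds.congr' ?_
    filter_upwards [eventually_gt_atTop a.natDegree] with N hN
    have ha : a ∈ degreeLT (ZMod 2) N :=
      mem_degreeLT.2 (degree_le_natDegree.trans_lt (by exact_mod_cast hN))
    have : (fun x => x + a) '' (degreeLT (ZMod 2) N : Set O) = degreeLT (ZMod 2) N := by
      ext x
      constructor
      · rintro ⟨y, hy, rfl⟩; exact add_mem hy ha
      · intro hx; exact ⟨x - a, sub_mem hx ha, by simp⟩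
    simp [this]
  · refine lt_of_lt_of_le (show (0 : ℝ) < 1 / 16 by norm_num)
      (le_limsup_of_frequently_le (Eventually.frequently (Eventually.of_forall fun N => ?_))
        ⟨1, eventually_map.2 (Eventually.of_forall fun N => ?_)⟩)
    · rw [div_le_div_iff₀ (by norm_num) (pos N)]
      set m := l.comp (degreeLT (ZMod 2) N).toAddSubgroup.subtype with hm
      have h1 := m.ker.card_mul_index
      have h2 : m.ker.index ≤ 16 := by
        rw [AddSubgroup.index_ker]
        refine (Nat.card_le_card_of_injective _ m.range.subtype_injective).trans (by simp)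
      have h3 : Nat.card m.ker = ((l.ker : Set O) ∩ (fs N).toFinset).ncard := by
        rw [← Nat.card_coe_set_eq]
        refine Nat.card_congr ⟨fun x => ⟨x.1.1, x.2, by simp⟩,
          fun x => ⟨⟨x.1, by simpa using x.2.2⟩, x.2.1⟩, fun _ => rfl, fun _ => rfl⟩
      have h4 : Nat.card (degreeLT (ZMod 2) N).toAddSubgroup = (fs N).toFinset.card := by
        rw [← Set.ncard_eq_toFinset_card _ (fs N), ← Nat.card_coe_set_eq]; rfl
      have h5 := Nat.mul_le_mul_left (Nat.card m.ker) h2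
      rw [h1, h3, h4] at h5
      rw [one_mul]
      exact_mod_cast h5
    · refine (div_le_one (pos N)).2 ?_
      rw [← Set.ncard_coe_finset]
      exact_mod_cast Set.ncard_le_ncard Set.inter_subset_right (Finset.finite_toSet _)

lemma local_root (p : O) (hp : Prime p) (i : ℕ) (a b : O) : ∃ n : O,
    p ^ i ∣ (n ^ 2 - n - a) * (n ^ 2 - n - b) * (n ^ 2 - n - (a + b)) := by
  have h0 : p ^ i ≠ 0 := pow_ne_zero _ hp.ne_zero
  have := (AdjoinRoot.powerBasis h0).finite
  have : Finite (AdjoinRoot (p ^ i)) := Module.finite_of_finite (ZMod 2)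
  have two : (2 : AdjoinRoot (p ^ i)) = 0 := by
    rw [← map_ofNat (algebraMap (ZMod 2) (AdjoinRoot (p ^ i))) 2,
      show (OfNat.ofNat 2 : ZMod 2) = 0 from rfl, map_zero]
  let w : AdjoinRoot (p ^ i) →+ AdjoinRoot (p ^ i) :=
    { toFun := fun x => x ^ 2 - x
      map_zero' := by simp
      map_add' := fun x y => by linear_combination x * y * two }
  have h1 : (w.ker : Set (AdjoinRoot (p ^ i))) ⊆ {0, 1} := by
    intro x hx
    obtain ⟨n, rfl⟩ := AdjoinRoot.mk_surjective x
    have h2 : p ^ i ∣ n * (n - 1) := by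
      rw [← AdjoinRoot.mk_eq_zero, map_mul, map_sub, map_one]
      have : AdjoinRoot.mk (p ^ i) n ^ 2 - AdjoinRoot.mk (p ^ i) n = 0 := hx
      linear_combination this
    by_cases h3 : p ∣ n
    · have h4 : ¬ p ∣ n - 1 := fun e => hp.not_dvd_one (by simpa using dvd_sub h3 e)
      exact Or.inl (AdjoinRoot.mk_eq_zero.2 (hp.pow_dvd_of_dvd_mul_right _ h4 h2))
    · exact Or.inr ((AdjoinRoot.mk_eq_mk.2 (hp.pow_dvd_of_dvd_mul_left _ h3 h2)).trans (map_one _))
  have h2 : w.range.index ≤ 2 := by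
    rw [AddSubgroup.index_range, ← SetLike.coe_sort_coe, Nat.card_coe_set_eq]
    exact (Set.ncard_le_ncard h1 (Set.toFinite _)).trans 
      ((Set.ncard_insert_le _ _).trans (by simp))
  have h3 : ∀ c : O, AdjoinRoot.mk (p ^ i) c ∈ w.range → ∃ n : O, p ^ i ∣ n ^ 2 - n - c := by
    rintro c ⟨x, hx⟩
    obtain ⟨n, rfl⟩ := AdjoinRoot.mk_surjective x
    refine ⟨n, AdjoinRoot.mk_eq_mk.1 ?_⟩
    rw [← hx, map_sub, map_pow]
    rfl
  have h4 : AdjoinRoot.mk (p ^ i) a ∈ w.range ∨ AdjoinRoot.mk (p ^ i) b ∈ w.range ∨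
      AdjoinRoot.mk (p ^ i) (a + b) ∈ w.range := by
    have h5 : w.range.index ≠ 0 := AddSubgroup.FiniteIndex.index_ne_zero
    rcases (show w.range.index = 1 ∨ w.range.index = 2 by omega) with h | h
    · left; rw [AddSubgroup.index_eq_one.1 h]; trivial
    · rw [map_add, AddSubgroup.add_mem_iff_of_index_two h]; tauto
  rcases h4 with h | h | h <;> obtain ⟨n, hn⟩ := h3 _ h
  · exact ⟨n, (hn.mul_right _).mul_right _⟩
  · exact ⟨n, (hn.mul_left _).mul_right _⟩
  · exact ⟨n, hn.mul_left _⟩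

lemma root (D : O[X]) (h : ∀ p : O, Prime p → ∀ i : ℕ, ∃ n, p ^ i ∣ D.eval n) (f : O) :
    f ≠ 0 → ∃ n, f ∣ D.eval n := by
  induction f using UniqueFactorizationMonoid.induction_on_coprime with
  | h0 => exact fun e => absurd rfl e
  | h1 hx => exact fun _ => ⟨0, hx.dvd⟩
  | hpr i hp => exact fun _ => h _ hp i
  | @hcp x y hxy hx hy =>
    intro e
    obtain ⟨m, hm⟩ := hx (left_ne_zero_of_mul e)
    obtain ⟨n, hn⟩ := hy (right_ne_zero_of_mul e)
    obtain ⟨u, v, huv⟩ := hxy.isCoprime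
    refine ⟨m * (v * y) + n * (u * x), hxy.isCoprime.mul_dvd ?_ ?_⟩
    · have := (show x ∣ m * (v * y) + n * (u * x) - m from
        ⟨(n - m) * u, by linear_combination m * huv⟩).trans (sub_dvd_eval_sub _ _ D)
      simpa using dvd_add this hm
    · have := (show y ∣ m * (v * y) + n * (u * x) - n from
        ⟨(m - n) * v, by linear_combination n * huv⟩).trans (sub_dvd_eval_sub _ _ D)
      simpa using dvd_add this hn

lemma key {K : Type} [Field K] [Algebra (ZMod 2) K] (a : K) (ha : ∀ x : K, x ^ 2 - x ≠ a)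
    (g : K →ₗ[ZMod 2] ZMod 2) (hg : g 1 = 1) (q r s : K) :
    ∃ l : Fin 4 → K →+ ZMod 2, ∀ n E d : K, E ^ 2 - E = d * (q + r * (n ^ 2 - n)) →
      (n ^ 2 - n - a) * E = d * s →
      g E = l 0 d + l 1 (d * (n ^ 2 - n)) + l 2 (d * n ^ 2) + l 3 (d * n ^ 2 * (n ^ 2 - n)) := by
  have two : (2 : K) = 0 := by
    rw [← map_ofNat (algebraMap (ZMod 2) K) 2, show (OfNat.ofNat 2 : ZMod 2) = 0 from rfl, map_zero]
  let w0 : K →+ K :=
    { toFun := fun x => x ^ 2 - x
      map_zero' := by simp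
      map_add' := fun x y => by linear_combination x * y * two }
  let w : K →ₗ[ZMod 2] K := w0.toZModLinearMap 2
  have hw : ∀ x, w x = x ^ 2 - x := fun _ => rfl
  obtain ⟨α, h1, h2⟩ := Submodule.exists_le_ker_of_notMem (p := LinearMap.range w) (v := a)
    (by rintro ⟨x, hx⟩; exact ha x hx)
  have h3 : α a = 1 := by
    revert h1; generalize α a = z; revert z; decide
  obtain ⟨δ, h4⟩ : g + α.comp (LinearMap.mulLeft (ZMod 2) a) ∈ LinearMap.range w.dualMap := by
    rw [LinearMap.range_dualMap_eq_dualAnnihilator_ker, Submodule.mem_dualAnnihilator]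
    intro x hx
    have h5 : x * (x - 1) = 0 := by
      have : x ^ 2 - x = 0 := hx
      linear_combination this
    rcases mul_eq_zero.1 h5 with rfl | h6
    · simp
    · rw [sub_eq_zero.1 h6]
      simp only [LinearMap.add_apply, LinearMap.comp_apply, LinearMap.mulLeft_apply, mul_one, hg, h3]
      rfl
  refine ⟨![δ.toAddMonoidHom.comp (AddMonoidHom.mulRight q) +
      α.toAddMonoidHom.comp (AddMonoidHom.mulRight s),
    δ.toAddMonoidHom.comp (AddMonoidHom.mulRight r),
    α.toAddMonoidHom.comp (AddMonoidHom.mulRight q),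
    α.toAddMonoidHom.comp (AddMonoidHom.mulRight r)], fun n E d e1 e2 => ?_⟩
  have h5 : δ (E ^ 2 - E) = g E + α (a * E) := congrArg (fun f => f E) h4
  have h6 : α ((n * E) ^ 2 - n * E) = 0 := h2 ⟨n * E, rfl⟩
  have h7 : (n * E) ^ 2 - n * E - a * E =
      d * s + d * n ^ 2 * q + d * n ^ 2 * (n ^ 2 - n) * r := by
    linear_combination n ^ 2 * e1 + e2
  have h8 := congrArg α h7
  rw [map_sub, h6, map_add, map_add] at h8
  rw [e1, show d * (q + r * (n ^ 2 - n)) = d * q + d * (n ^ 2 - n) * r by ring, map_add] at h5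
  simp only [Matrix.cons_val_zero, Matrix.cons_val_one, Matrix.cons_val, AddMonoidHom.add_apply,
    AddMonoidHom.comp_apply, AddMonoidHom.mulRight_apply, LinearMap.toAddMonoidHom_coe]
  linear_combination h8 - h5

lemma odd_deg (a : O) (ha : Odd a.natDegree) (x : RatFunc (ZMod 2)) :
    x ^ 2 - x ≠ algebraMap O _ a := by
  intro e
  obtain ⟨y, rfl⟩ := IsIntegrallyClosed.algebraMap_eq_of_integral (R := O)
    (K := RatFunc (ZMod 2)) (x := x) ⟨X ^ 2 - X - C a, by monicity!, by simp [e]⟩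
  rw [← map_pow, ← map_sub] at e
  have e1 := IsFractionRing.injective O (RatFunc (ZMod 2)) e
  rcases Nat.eq_zero_or_pos y.natDegree with h | h
  · have : (y ^ 2 - y).natDegree ≤ 0 := (natDegree_sub_le _ _).trans (by simp [h])
    rw [e1] at this
    obtain ⟨k, hk⟩ := ha
    omega
  · rw [← e1, natDegree_sub_eq_left_of_natDegree_lt (by rw [natDegree_pow]; omega),
      natDegree_pow] at ha
    exact (Nat.not_odd_iff_even.2 (even_two_mul _)) ha

noncomputable def D : O[X] :=
  (X ^ 2 - X - C (X : O)) * (X ^ 2 - X - C (X ^ 3 : O)) * (X ^ 2 - X - C (X + X ^ 3 : O))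

theorem result : ∃ P : Fin 4 → O[X], (∀ i, 0 < (P i).natDegree) ∧
    (∀ I : Ideal O, I ≠ ⊥ → ∃ n : O, ∀ i, (P i).eval n ∈ I) ∧
    ∃ A : Set O, PosDens A ∧ ¬ ∃ x n : O, x ∈ A ∧ ∀ i, x + (P i).eval n ∈ A := by
  have hD : D.Monic ∧ D.natDegree = 6 := by
    unfold D
    exact ⟨by monicity!, by compute_degree!⟩
  have hd : ∀ T : O[X], T.Monic → 0 < (D * T).natDegree := fun T hT => by
    rw [hD.1.natDegree_mul hT, hD.2]; omega
  have m1 : (X ^ 2 - X : O[X]).Monic := by monicity!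
  let ι := algebraMap O (RatFunc (ZMod 2))
  obtain ⟨g, hg, -⟩ := Submodule.exists_le_ker_of_notMem
    (p := (⊥ : Submodule (ZMod 2) (RatFunc (ZMod 2)))) (v := 1) (by simp)
  have hg1 : g 1 = 1 := by
    revert hg; generalize g 1 = z; revert z; decide
  have o1 : Odd (X : O).natDegree := by simp
  have o2 : Odd (X ^ 3 : O).natDegree := by simp; decide
  have o3 : Odd (X + X ^ 3 : O).natDegree := by
    rw [show (X + X ^ 3 : O).natDegree = 3 by compute_degree!]; decide
  have two : (2 : RatFunc (ZMod 2)) = 0 := by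
    rw [← map_ofNat (algebraMap (ZMod 2) (RatFunc (ZMod 2))) 2,
      show (OfNat.ofNat 2 : ZMod 2) = 0 from rfl, map_zero]
  have ha : ι X ≠ 0 := fun e => odd_deg _ o1 0 (Eq.trans (by simp) e.symm)
  have hb : ι (X ^ 3) ≠ 0 := fun e => odd_deg _ o2 0 (Eq.trans (by simp) e.symm)
  have hc : ι (X + X ^ 3) ≠ 0 := fun e => odd_deg _ o3 0 (Eq.trans (by simp) e.symm)
  have hab : ι (X + X ^ 3) = ι X + ι (X ^ 3) := map_add _ _ _
  have k1 := key _ (odd_deg _ o1) g hg1
  have k2 := key _ (odd_deg _ o2) g hg1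
  have k3 := key _ (odd_deg _ o3) g hg1
  have ev : ∀ n : O, ι (D.eval n) = (ι n ^ 2 - ι n - ι X) * (ι n ^ 2 - ι n - ι (X ^ 3)) *
      (ι n ^ 2 - ι n - ι (X + X ^ 3)) := fun n => by
    simp only [D, eval_mul, eval_sub, eval_pow, eval_X, eval_C, map_mul, map_sub, map_pow ι n]
  change ∀ q r s, ∃ l : Fin 4 → _ →+ _, ∀ n E d, _ → (_ - ι X) * E = _ → _ at k1
  change ∀ q r s, ∃ l : Fin 4 → _ →+ _, ∀ n E d, _ → (_ - ι (X ^ 3)) * E = _ → _ at k2
  change ∀ q r s, ∃ l : Fin 4 → _ →+ _, ∀ n E d, _ → (_ - ι (X + X ^ 3)) * E = _ → _ at k3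
  generalize ι X = a at *
  generalize ι (X ^ 3) = b at *
  generalize ι (X + X ^ 3) = c at *
  have d1 : a - b ≠ 0 := fun e => hc (by linear_combination hab + e + b * two)
  have d2 : a - c ≠ 0 := fun e => hb (by linear_combination -hab - e)
  have d3 : b - c ≠ 0 := fun e => ha (by linear_combination -hab - e)
  obtain ⟨l1, h1⟩ := k1 ((a - b - c) / ((a - b) * (a - c)) ^ 2) (1 / ((a - b) * (a - c)) ^ 2)
    (1 / ((a - b) * (a - c)))
  obtain ⟨l2, h2⟩ := k2 ((b - a - c) / ((a - b) * (b - c)) ^ 2) (1 / ((a - b) * (b - c)) ^ 2)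
    (-1 / ((a - b) * (b - c)))
  obtain ⟨l3, h3⟩ := k3 ((c - a - b) / ((a - c) * (b - c)) ^ 2) (1 / ((a - c) * (b - c)) ^ 2)
    (1 / ((a - c) * (b - c)))
  refine ⟨![D * 1, D * (X ^ 2 - X), D * X ^ 2, D * (X ^ 2 * (X ^ 2 - X))], fun i => ?_,
    fun I hI => ?_, (AddMonoidHom.pi fun i => (l1 i + l2 i + l3 i).comp ι.toAddMonoidHom).ker,
    dens _, ?_⟩
  · fin_cases i
    exacts [hd _ monic_one, hd _ m1, hd _ (monic_X_pow 2), hd _ ((monic_X_pow 2).mul m1)]
  · obtain ⟨f, hf, hf0⟩ := Submodule.exists_mem_ne_zero_of_ne_bot hI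
    obtain ⟨n, hn⟩ := root D (fun p hp i => by simpa [D] using local_root p hp i X (X ^ 3)) f hf0
    have := I.mem_of_dvd hn hf
    refine ⟨n, fun i => ?_⟩
    fin_cases i <;> exact (eval_mul (x := n)) ▸ I.mul_mem_right _ this
  · rintro ⟨x, n, hx, h⟩
    have h4 := fun i => congrFun (AddMonoidHom.mem_ker.1 ((add_mem_cancel_left hx).1 (h i))) i
    have e0 := h4 0
    have e1 := h4 1
    have e2 := h4 2
    have e3 := h4 3
    simp only [Matrix.cons_val_zero, Matrix.cons_val_one, Matrix.cons_val, AddMonoidHom.add_apply,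
      AddMonoidHom.comp_apply, AddMonoidHom.pi_apply, RingHom.toAddMonoidHom_eq_coe,
      AddMonoidHom.coe_coe, eval_mul, eval_one, mul_one, eval_sub, eval_pow, eval_X, map_mul,
      map_sub, map_pow, Pi.zero_apply, ← mul_assoc] at e0 e1 e2 e3
    have e4 := ev n
    generalize ι (D.eval n) = d at *
    generalize ι n = m at *
    have f1 := h1 m ((m ^ 2 - m - b) * (m ^ 2 - m - c) / ((a - b) * (a - c))) d
      (by rw [e4]; field_simp; ring) (by rw [e4]; field_simp)
    have f2 := h2 m (-((m ^ 2 - m - a) * (m ^ 2 - m - c)) / ((a - b) * (b - c))) d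
      (by rw [e4]; field_simp; ring) (by rw [e4]; field_simp)
    have f3 := h3 m ((m ^ 2 - m - a) * (m ^ 2 - m - b) / ((a - c) * (b - c))) d
      (by rw [e4]; field_simp; ring) (by rw [e4]; field_simp)
    have f4 := congrArg g (show (m ^ 2 - m - b) * (m ^ 2 - m - c) / ((a - b) * (a - c)) +
      -((m ^ 2 - m - a) * (m ^ 2 - m - c)) / ((a - b) * (b - c)) +
      (m ^ 2 - m - a) * (m ^ 2 - m - b) / ((a - c) * (b - c)) = 1 by field_simp; ring)
    rw [map_add, map_add, f1, f2, f3, hg1] at f4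
    exact one_ne_zero (α := ZMod 2) (by linear_combination e0 + e1 + e2 + e3 - f4)

end Pool.Agent.Results.MP_045218_nt.Counter
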